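import Mathlib
import Pool.Agent.Work.MP_38bc51_pr.HC.Seq

/-!
# Matrix product sign laws of range `r + 2`

The law is `P (s_0 = b_0, ..., s_n = b_n) = w (M_{b_0} ⋯ M_{b_n} v)`, where the `(r+1)`-st power of
`M_0 + M_1` is `w ⊗ v`, of rank one.
-/

namespace HC38bc51.R3

open MeasureTheory ProbabilityTheory Filter Topology HC38bc51.HC

/-- matrix product data; the `(r+1)`-st power of the total map has rank one -/
structure SR (r : ℕ) (V : Type) [AddCommGroup V] [Module ℝ V] where
  M0 : V →ₗ[ℝ] V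
  M1 : V →ₗ[ℝ] V
  w : V →ₗ[ℝ] ℝ
  v : V
  wv : w v = 1
  wT : ∀ s, w ((M0 + M1) s) = w s
  Tv : (M0 + M1) v = v
  rk : ∀ s, (fun x => (M0 + M1) x)^[r + 1] s = w s • v

variable {r : ℕ} {V : Type} [AddCommGroup V] [Module ℝ V] (D : SR r V)

namespace SR

/-- the total map -/
def T : V →ₗ[ℝ] V := D.M0 + D.M1

/-- letter map -/
def L (b : Bool) : V →ₗ[ℝ] V := if b then D.M1 else D.M0

/-- state of a word -/
def st : (n : ℕ) → (Fin n → Bool) → V
  | 0, _ => D.v
  | n + 1, f => D.L (f 0) (st n (Fin.tail f))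

open Classical in
/-- state after processing the window `[a, a+n)` with the letter `c` prescribed on `S`. -/
noncomputable def G (D : SR r V) (c : Bool) : ℕ → ℤ → Set ℤ → V
  | 0, _, _ => D.v
  | n + 1, a, S => if a ∈ S then D.L c (G D c n (a + 1) S) else D.T (G D c n (a + 1) S)

lemma L_add (s : V) : D.L true s + D.L false s = D.T s := by
  rw [add_comm]
  rfl

variable {D} {c : Bool}

lemma wT' (s : V) : D.w (D.T s) = D.w s := D.wT s
lemma Tv' : D.T D.v = D.v := D.Tv

lemma rk' (s : V) : (D.T)^[r + 1] s = D.w s • D.v := D.rk s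

lemma w_iter (k : ℕ) (s : V) : D.w ((D.T)^[k] s) = D.w s := by
  induction k generalizing s with
  | zero => rfl
  | succ k ih => rw [Function.iterate_succ_apply, ih, wT']

lemma G_pos {n : ℕ} {a : ℤ} {S : Set ℤ} (h : a ∈ S) :
    D.G c (n + 1) a S = D.L c (D.G c n (a + 1) S) := by rw [G, if_pos h]

lemma G_neg {n : ℕ} {a : ℤ} {S : Set ℤ} (h : a ∉ S) :
    D.G c (n + 1) a S = D.T (D.G c n (a + 1) S) := by rw [G, if_neg h]

lemma G_empty {S : Set ℤ} : ∀ (n : ℕ) (a : ℤ), (∀ i, a ≤ i → i < a + n → i ∉ S) →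
    D.G c n a S = D.v
  | 0, _, _ => rfl
  | n + 1, a, h => by
    have ih := G_empty (S := S) n (a + 1) (fun i h1 h2 => h i (by omega)
      (by push_cast at h2 ⊢; omega))
    rw [G_neg (h a le_rfl (by push_cast; omega)), ih, Tv']

/-- extension to the right -/
lemma G_right {S : Set ℤ} : ∀ (n : ℕ) (a : ℤ), a + n ∉ S → D.G c (n + 1) a S = D.G c n a S
  | 0, a, h => by
    rw [G_neg (by simpa using h)]
    exact Tv'
  | n + 1, a, h => by
    have ih := G_right (S := S) n (a + 1) (by
      have e : a + 1 + (n : ℤ) = a + ((n + 1 : ℕ) : ℤ) := by push_cast; ring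
      rwa [e])
    by_cases h1 : a ∈ S
    · rw [G_pos h1, ih, G_pos h1]
    · rw [G_neg h1, ih, G_neg h1]

/-- extension to the left -/
lemma w_G_left {S : Set ℤ} {n : ℕ} {a : ℤ} (h : a ∉ S) :
    D.w (D.G c (n + 1) a S) = D.w (D.G c n (a + 1) S) := by
  rw [G_neg h, wT']

lemma w_G_right_many {S : Set ℤ} {n : ℕ} {a : ℤ} (m : ℕ) (h : ∀ i, a + n ≤ i → i ∉ S) :
    D.G c (n + m) a S = D.G c n a S := by
  induction m with
  | zero => rfl
  | succ m ih =>
    rw [← add_assoc, G_right _ _ (h _ (by push_cast; omega)), ih]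

lemma w_G_left_many {S : Set ℤ} {n : ℕ} {a : ℤ} (m : ℕ) (h : ∀ i, i < a → i ∉ S) :
    D.w (D.G c (n + m) (a - m) S) = D.w (D.G c n a S) := by
  induction m with
  | zero => simp
  | succ m ih =>
    rw [← add_assoc, w_G_left (h _ (by push_cast; omega))]
    have e : a - ((m + 1 : ℕ) : ℤ) + 1 = a - m := by push_cast; ring
    rw [e, ih]

variable (D c) in
/-- the correlation function: value on a big symmetric window -/
noncomputable def rho (S : Finset ℤ) : ℝ :=
  D.w (D.G c (2 * (S.sup Int.natAbs + 1)) (-((S.sup Int.natAbs + 1 : ℕ) : ℤ)) S)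

lemma rho_eq {S : Finset ℤ} {n : ℕ} (hn : ∀ i ∈ S, -(n : ℤ) ≤ i ∧ i < n) :
    D.w (D.G c (2 * n) (-(n : ℤ)) S) = D.rho c S := by
  -- both agree with a bigger window
  have key : ∀ m : ℕ, (∀ i ∈ S, -(m : ℤ) ≤ i ∧ i < m) → ∀ k : ℕ,
      D.w (D.G c (2 * (m + k)) (-((m + k : ℕ) : ℤ)) S) = D.w (D.G c (2 * m) (-(m : ℤ)) S) := by
    intro m hm k
    have e1 : 2 * (m + k) = (2 * m + k) + k := by ring
    have e2 : -((m + k : ℕ) : ℤ) = -(m : ℤ) - (k : ℤ) := by push_cast; ring
    rw [e1, e2, w_G_left_many k, w_G_right_many k]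
    · intro i hi h
      have := hm i h
      push_cast at hi
      omega
    · intro i hi h
      have := hm i h
      omega
  set N := S.sup Int.natAbs + 1 with hN
  have hNS : ∀ i ∈ S, -(N : ℤ) ≤ i ∧ i < N := by
    intro i hi
    have h1 : i.natAbs ≤ S.sup Int.natAbs := Finset.le_sup (f := Int.natAbs) hi
    have h2 : i.natAbs < N := by omega
    omega
  have k1 := key n hn N
  have k2 := key N hNS n
  rw [add_comm N n] at k2
  rw [← k1, k2, rho]

lemma G_shift {S S' : Set ℤ} (h : ∀ i, i + 1 ∈ S ↔ i ∈ S') : ∀ (n : ℕ) (a : ℤ),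
    D.G c n (a + 1) S = D.G c n a S'
  | 0, _ => rfl
  | n + 1, a => by
    have ih := G_shift h n (a + 1)
    by_cases h1 : a ∈ S'
    · rw [G_pos ((h a).mpr h1), G_pos h1, ih]
    · rw [G_neg (fun h2 => h1 ((h a).mp h2)), G_neg h1, ih]

lemma rho_shift {S S' : Finset ℤ} (h : ∀ i, i + 1 ∈ S ↔ i ∈ S') : D.rho c S = D.rho c S' := by
  -- take a window which is large for both
  obtain ⟨N, hN⟩ : ∃ N : ℕ, (∀ i ∈ S', -(N : ℤ) ≤ i ∧ i < N) := by
    refine ⟨S'.sup Int.natAbs + 1, fun i hi => ?_⟩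
    have h1 : i.natAbs ≤ S'.sup Int.natAbs := Finset.le_sup (f := Int.natAbs) hi
    push_cast
    omega
  have hS : ∀ i ∈ S, -(N : ℤ) + 1 ≤ i ∧ i < N + 1 := by
    intro i hi
    have := hN (i - 1) ((h (i - 1)).mp (by simpa using hi))
    omega
  rw [← rho_eq (n := N) hN, ← rho_eq (n := N + 1) (fun i hi => by
    have := hS i hi; push_cast; omega)]
  have e1 : 2 * (N + 1) = (2 * N + 1) + 1 := by ring
  have e2 : -((N + 1 : ℕ) : ℤ) = -(N : ℤ) - 1 := by push_cast; ring
  rw [e1, e2, w_G_left (by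
    intro h1; have := hS _ h1; omega)]
  have e3 : -(N : ℤ) - 1 + 1 = -(N : ℤ) := by ring
  rw [e3, w_G_left (by intro h1; have := hS _ h1; omega),
    G_shift (S := (S : Set ℤ)) (S' := (S' : Set ℤ))
      (fun i => by rw [Finset.mem_coe, Finset.mem_coe]; exact h i)]

/-- free positions -/
lemma G_iter {S : Set ℤ} : ∀ (k n : ℕ) (a : ℤ), (∀ j : ℕ, j < k → a + j ∉ S) →
    D.G c (n + k) a S = (D.T)^[k] (D.G c n (a + k) S)
  | 0, n, a, _ => by simp
  | k + 1, n, a, h => by
    have h0 : a ∉ S := by simpa using h 0 (by omega)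
    have ih := G_iter (S := S) k n (a + 1) (fun j hj => by
      have := h (j + 1) (by omega)
      have e : a + 1 + (j : ℤ) = a + ((j + 1 : ℕ) : ℤ) := by push_cast; ring
      rwa [e])
    rw [← add_assoc, G_neg h0, ih, Function.iterate_succ_apply']
    have e : a + 1 + (k : ℤ) = a + ((k + 1 : ℕ) : ℤ) := by push_cast; ring
    rw [e]

lemma G_free {S : Set ℤ} {n : ℕ} {a : ℤ} (h : ∀ j : ℕ, j ≤ r → a + j ∉ S) :
    D.G c n a S = D.w (D.G c n a S) • D.v := by
  by_cases hn : n ≤ r
  · rw [G_empty n a (fun i h1 h2 => by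
      have := h (i - a).toNat (by omega)
      have e : a + ((i - a).toNat : ℤ) = i := by omega
      rwa [e] at this), D.wv, one_smul]
  · obtain ⟨k, rfl⟩ : ∃ k, n = k + (r + 1) := ⟨n - (r + 1), by omega⟩
    rw [G_iter (r + 1) k a (fun j hj => h j (by omega)), rk', map_smul, D.wv, smul_eq_mul, mul_one]

lemma G_union {S T : Set ℤ} (hST : ∀ a ∈ S, ∀ b ∈ T, (r : ℤ) + 2 ≤ |a - b|) :
    ∀ (n : ℕ) (a : ℤ),
    ((∀ j : ℕ, j ≤ r → a + j ∉ T) → D.G c n a (S ∪ T) = D.w (D.G c n a T) • D.G c n a S) ∧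
    ((∀ j : ℕ, j ≤ r → a + j ∉ S) → D.G c n a (S ∪ T) = D.w (D.G c n a S) • D.G c n a T) := by
  intro n
  induction n with
  | zero => intro a; simp [G, D.wv]
  | succ n ih =>
    intro a
    obtain ⟨ih1, ih2⟩ := ih (a + 1)
    have far : ∀ i ∈ S, ∀ j ∈ T, i + r + 2 ≤ j ∨ j + r + 2 ≤ i := by
      intro i hi j hj
      have := hST i hi j hj
      rcases abs_cases (i - j) with h | h <;> omega
    by_cases haS : a ∈ S
    · have haT : a ∉ T := fun h => by have := far a haS a h; omega
      have haT1 : ∀ j : ℕ, j ≤ r → a + 1 + j ∉ T := fun j hj h => by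
        have := far a haS _ h; omega
      refine ⟨fun _ => ?_, fun h => absurd haS (by simpa using h 0 (by omega))⟩
      rw [G_pos (Or.inl haS : a ∈ S ∪ T), ih1 haT1, w_G_left haT, G_pos haS, map_smul]
    · by_cases haT : a ∈ T
      · have haS1 : ∀ j : ℕ, j ≤ r → a + 1 + j ∉ S := fun j hj h => by
          have := far _ h a haT; omega
        refine ⟨fun h => absurd haT (by simpa using h 0 (by omega)), fun _ => ?_⟩
        rw [G_pos (Or.inr haT : a ∈ S ∪ T), ih2 haS1, w_G_left haS, G_pos haT, map_smul]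
      · have hU : a ∉ S ∪ T := fun h => h.elim haS haT
        constructor
        · intro h
          by_cases h2 : a + 1 + r ∈ T
          · have hS1 : ∀ j : ℕ, j ≤ r → a + 1 + j ∉ S := fun j hj h3 => by
              have := far _ h3 _ h2; omega
            have hS0 : ∀ j : ℕ, j ≤ r → a + j ∉ S := fun j hj h3 => by
              have := far _ h3 _ h2; omega
            have e1 := G_free (D := D) (c := c) (n := n + 1) h
            have e2 := G_free (D := D) (c := c) (n := n + 1) hS0
            rw [G_neg hU, ih2 hS1, map_smul, ← G_neg haT, e1, e2, w_G_left haS, w_G_left haT]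
            simp only [map_smul, D.wv, smul_eq_mul, mul_one]
            rw [smul_smul, smul_smul, mul_comm]
          · have hT1 : ∀ j : ℕ, j ≤ r → a + 1 + j ∉ T := fun j hj h3 => by
              by_cases hjr : j = r
              · exact h2 (by rw [hjr] at h3; exact h3)
              · refine h (j + 1) (by omega) ?_
                have e : a + ((j + 1 : ℕ) : ℤ) = a + 1 + (j : ℤ) := by push_cast; ring
                rwa [e]
            rw [G_neg hU, ih1 hT1, map_smul, ← G_neg haS, w_G_left haT]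
        · intro h
          by_cases h2 : a + 1 + r ∈ S
          · have hT1 : ∀ j : ℕ, j ≤ r → a + 1 + j ∉ T := fun j hj h3 => by
              have := far _ h2 _ h3; omega
            have hT0 : ∀ j : ℕ, j ≤ r → a + j ∉ T := fun j hj h3 => by
              have := far _ h2 _ h3; omega
            have e1 := G_free (D := D) (c := c) (n := n + 1) hT0
            have e2 := G_free (D := D) (c := c) (n := n + 1) h
            rw [G_neg hU, ih1 hT1, map_smul, ← G_neg haS, e1, e2, w_G_left haS, w_G_left haT]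
            simp only [map_smul, D.wv, smul_eq_mul, mul_one]
            rw [smul_smul, smul_smul, mul_comm]
          · have hS1 : ∀ j : ℕ, j ≤ r → a + 1 + j ∉ S := fun j hj h3 => by
              by_cases hjr : j = r
              · exact h2 (by rw [hjr] at h3; exact h3)
              · refine h (j + 1) (by omega) ?_
                have e : a + ((j + 1 : ℕ) : ℤ) = a + 1 + (j : ℤ) := by push_cast; ring
                rwa [e]
            rw [G_neg hU, ih2 hS1, map_smul, ← G_neg haT, w_G_left haS]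

lemma w_G_union {S T : Set ℤ} (hST : ∀ a ∈ S, ∀ b ∈ T, (r : ℤ) + 2 ≤ |a - b|) (n : ℕ) (a : ℤ) :
    D.w (D.G c n a (S ∪ T)) = D.w (D.G c n a S) * D.w (D.G c n a T) := by
  by_cases h : ∀ j : ℕ, j ≤ r → a + j ∉ T
  · rw [(G_union hST n a).1 h, map_smul, smul_eq_mul, mul_comm]
  · have h2 : ∀ j : ℕ, j ≤ r → a + j ∉ S := by
      intro i hi h3
      apply h
      intro j hj h4
      have := hST _ h3 _ h4
      rcases abs_cases (a + (i : ℤ) - (a + (j : ℤ))) with h | h <;> omega
    rw [(G_union hST n a).2 h2, map_smul, smul_eq_mul]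

lemma rho_union {S T : Finset ℤ} (hST : ∀ a ∈ S, ∀ b ∈ T, (r : ℤ) + 2 ≤ |a - b|) :
    D.rho c (S ∪ T) = D.rho c S * D.rho c T := by
  set N := (S ∪ T).sup Int.natAbs + 1 with hN
  have hNS : ∀ i ∈ S ∪ T, -(N : ℤ) ≤ i ∧ i < N := by
    intro i hi
    have h1 : i.natAbs ≤ (S ∪ T).sup Int.natAbs := Finset.le_sup (f := Int.natAbs) hi
    omega
  rw [← rho_eq hNS, ← rho_eq (S := S) (fun i hi => hNS i (Finset.mem_union_left _ hi)),
    ← rho_eq (S := T) (fun i hi => hNS i (Finset.mem_union_right _ hi)), Finset.coe_union,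
    w_G_union (by simpa using hST)]

end SR

variable {D}

open Classical in
lemma sum_st (c : Bool) : ∀ (n : ℕ) (a : ℤ) (S : Set ℤ),
    ∑ f : Fin n → Bool, (if ∀ i ∈ S, a ≤ i → i < a + n → ext n a f i = c then D.st n f else 0)
      = D.G c n a S := by
  intro n
  induction n with
  | zero =>
    intro a S
    have : ∀ i ∈ S, a ≤ i → i < a + ((0 : ℕ) : ℤ) → ext 0 a (default : Fin 0 → Bool) i = c := by
      intro i _ h1 h2; push_cast at h2; omega
    rw [Fintype.sum_subsingleton _ (default : Fin 0 → Bool), if_pos this]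
    rfl
  | succ n ih =>
    intro a S
    have hc : ∀ (b : Bool) (g : Fin n → Bool),
        (∀ i ∈ S, a ≤ i → i < a + ((n + 1 : ℕ) : ℤ) →
          ext (n + 1) a (Fin.cons b g : Fin (n + 1) → Bool) i = c) ↔
        ((a ∈ S → b = c) ∧ ∀ i ∈ S, a + 1 ≤ i → i < a + 1 + (n : ℤ) →
          ext n (a + 1) g i = c) := by
      intro b g
      constructor
      · intro h
        constructor
        · intro ha
          have := h a ha le_rfl (by push_cast; omega)
          simpa [ext] using this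
        · intro i hi h1 h2
          have := h i hi (by omega) (by push_cast; omega)
          simp only [ext, Fin.tail_cons, Fin.cons_zero] at this
          rwa [Function.update_of_ne (by omega)] at this
      · rintro ⟨h1, h2⟩ i hi h3 h4
        simp only [ext, Fin.tail_cons, Fin.cons_zero]
        by_cases hia : i = a
        · subst hia
          rw [Function.update_self]
          exact h1 hi
        · rw [Function.update_of_ne hia]
          exact h2 i hi (by omega) (by push_cast at h4; omega)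
    rw [← (Fin.consEquiv (fun _ => Bool)).sum_comp, Fintype.sum_prod_type]
    have e : ∀ (b : Bool) (g : Fin n → Bool), (Fin.consEquiv (fun _ : Fin (n + 1) => Bool)) (b, g)
        = (Fin.cons b g : Fin (n + 1) → Bool) := fun _ _ => rfl
    simp only [e]
    have hst : ∀ (b : Bool) (g : Fin n → Bool),
        D.st (n + 1) (Fin.cons b g : Fin (n + 1) → Bool) = D.L b (D.st n g) := by
      intro b g; simp [SR.st]
    simp only [hc, hst]
    have hsum : ∀ b : Bool, ∑ g : Fin n → Bool,
        (if (a ∈ S → b = c) ∧ ∀ i ∈ S, a + 1 ≤ i → i < a + 1 + (n : ℤ) →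
          ext n (a + 1) g i = c then D.L b (D.st n g) else 0)
        = if a ∈ S → b = c then D.L b (D.G c n (a + 1) S) else 0 := by
      intro b
      by_cases hb : a ∈ S → b = c
      · rw [if_pos hb, ← ih (a + 1) S, map_sum]
        refine Finset.sum_congr rfl fun g _ => ?_
        by_cases hg : ∀ i ∈ S, a + 1 ≤ i → i < a + 1 + (n : ℤ) → ext n (a + 1) g i = c
        · rw [if_pos ⟨hb, hg⟩, if_pos hg]
        · rw [if_neg (fun h => hg h.2), if_neg hg, map_zero]
      · rw [if_neg hb]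
        exact Finset.sum_eq_zero fun g _ => if_neg fun h => hb h.1
    rw [Fintype.sum_bool, hsum, hsum]
    by_cases ha : a ∈ S
    · rw [SR.G_pos ha]
      cases c <;> simp [ha]
    · rw [SR.G_neg ha, if_pos (fun h => absurd h ha), if_pos (fun h => absurd h ha), SR.L_add]

/-- finite window measure -/
noncomputable def win (D : SR r V) (n : ℕ) (a : ℤ) : Measure (ℤ → Bool) :=
  ∑ f : Fin n → Bool, ENNReal.ofReal (D.w (D.st n f)) • Measure.dirac (ext n a f)

lemma win_CylB (hpos : ∀ n (f : Fin n → Bool), 0 ≤ D.w (D.st n f)) (c : Bool) {n : ℕ} {a : ℤ}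
    {S : Finset ℤ} (hS : ∀ i ∈ S, a ≤ i ∧ i < a + n) :
    win D n a (CylB c S) = ENNReal.ofReal (D.w (D.G c n a S)) := by
  classical
  rw [win, Measure.finsetSum_apply, ← sum_st, map_sum, ENNReal.ofReal_sum_of_nonneg]
  · refine Finset.sum_congr rfl fun f _ => ?_
    rw [Measure.smul_apply, Measure.dirac_apply' _ (measurableSet_CylB c S), smul_eq_mul]
    by_cases h : ∀ i ∈ (S : Set ℤ), a ≤ i → i < a + (n : ℤ) → ext n a f i = c
    · rw [if_pos h, Set.indicator_of_mem, Pi.one_apply, mul_one]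
      intro i hi
      exact h i hi (hS i hi).1 (hS i hi).2
    · rw [if_neg h, Set.indicator_of_notMem, mul_zero, map_zero, ENNReal.ofReal_zero]
      intro h2
      exact h fun i hi _ _ => h2 i hi
  · intro f _
    split_ifs
    · exact hpos n f
    · simp

lemma win_prob (hpos : ∀ n (f : Fin n → Bool), 0 ≤ D.w (D.st n f)) (n : ℕ) (a : ℤ) :
    IsProbabilityMeasure (win D n a) := by
  constructor
  have h := win_CylB hpos true (n := n) (a := a) (S := ∅) (by simp)
  have e : CylB true ∅ = Set.univ := by ext x; simp [CylB]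
  rw [e, Finset.coe_empty, SR.G_empty _ _ (by simp), D.wv] at h
  simpa using h

lemma exists_measure (hpos : ∀ n (f : Fin n → Bool), 0 ≤ D.w (D.st n f)) :
    ∃ μ : ProbabilityMeasure (ℤ → Bool), ∀ (c : Bool) (S : Finset ℤ),
      (μ : Measure (ℤ → Bool)) (CylB c S) = ENNReal.ofReal (D.rho c S) := by
  set μs : ℕ → ProbabilityMeasure (ℤ → Bool) :=
    fun n => ⟨win D (2 * n) (-(n : ℤ)), win_prob hpos _ _⟩ with hμs
  set U : Ultrafilter ℕ := Filter.hyperfilter ℕ
  obtain ⟨μ, -, hμ⟩ := isCompact_univ.ultrafilter_le_nhds (U.map μs) (by simp)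
  have hμ' : Tendsto μs U (𝓝 μ) := hμ
  refine ⟨μ, fun c S => ?_⟩
  have h1 := ProbabilityMeasure.tendsto_measure_of_isClopen_of_tendsto hμ' (isClopen_CylB c S)
  have h2 : ∀ᶠ n in (U : Filter ℕ), μs n (CylB c S) = (ENNReal.ofReal (D.rho c S)).toNNReal := by
    have h3 : ∀ᶠ n in atTop, μs n (CylB c S) = (ENNReal.ofReal (D.rho c S)).toNNReal := by
      filter_upwards [eventually_ge_atTop (S.sup Int.natAbs + 1)] with n hn
      have hnS : ∀ i ∈ S, -(n : ℤ) ≤ i ∧ i < n := by
        intro i hi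
        have h1 : i.natAbs ≤ S.sup Int.natAbs := Finset.le_sup (f := Int.natAbs) hi
        omega
      have h4 := win_CylB hpos c (n := 2 * n) (a := -(n : ℤ)) (S := S) (fun i hi => by
        have := hnS i hi; push_cast; omega)
      rw [SR.rho_eq hnS] at h4
      change ((win D (2 * n) (-(n : ℤ))) (CylB c S)).toNNReal = _
      rw [h4]
    exact (Nat.hyperfilter_le_atTop h3)
  have h3 := tendsto_nhds_unique (h1.congr' h2) tendsto_const_nhds
  have h4 : ((μ (CylB c S) : NNReal) : ENNReal) = (μ : Measure (ℤ → Bool)) (CylB c S) :=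
    ProbabilityMeasure.ennreal_coeFn_eq_coeFn_toMeasure _ _
  rw [← h4, h3, ENNReal.coe_toNNReal ENNReal.ofReal_ne_top]

lemma G_nonneg (hpos : ∀ n (f : Fin n → Bool), 0 ≤ D.w (D.st n f)) (c : Bool) (n : ℕ) (a : ℤ)
    (S : Set ℤ) : 0 ≤ D.w (D.G c n a S) := by
  classical
  rw [← sum_st, map_sum]
  refine Finset.sum_nonneg fun f _ => ?_
  split_ifs
  · exact hpos n f
  · simp

/-- flip symmetry of the data -/
lemma G_flip (σ : V →ₗ[ℝ] V) (hσv : σ D.v = D.v)
    (hσ : ∀ s, D.M0 (σ s) = σ (D.M1 s)) (hσT : ∀ s, D.T (σ s) = σ (D.T s)) (S : Set ℤ) : ∀ (n : ℕ) (a : ℤ),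
    D.G false n a S = σ (D.G true n a S) := by
  intro n
  induction n with
  | zero => intro a; exact hσv.symm
  | succ n ih =>
    intro a
    by_cases ha : a ∈ S
    · rw [SR.G_pos ha, SR.G_pos ha, ih]
      exact hσ _
    · rw [SR.G_neg ha, SR.G_neg ha, ih]
      exact hσT _

/-- the two-letter word `true true` -/
lemma rho_pair (c : Bool) : D.rho c {0, 1} = D.w (D.L c (D.L c D.v)) := by
  have hn : ∀ j ∈ ({0, 1} : Finset ℤ), -((2 : ℕ) : ℤ) ≤ j ∧ j < ((2 : ℕ) : ℤ) := by
    intro j hj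
    rw [Finset.mem_insert, Finset.mem_singleton] at hj
    push_cast
    omega
  rw [← SR.rho_eq hn]
  have e : 2 * 2 = 3 + 1 := rfl
  rw [e, SR.w_G_left (by simp)]
  have e2 : -((2 : ℕ) : ℤ) + 1 = -1 := by norm_num
  rw [e2, SR.w_G_left (by simp)]
  have e3 : -1 + 1 = (0 : ℤ) := by norm_num
  rw [e3, SR.G_pos (n := 1) (by simp), SR.G_pos (n := 0) (by simp)]
  rfl

theorem exists_signLaw (hpos : ∀ n (f : Fin n → Bool), 0 ≤ D.w (D.st n f))
    (σ : V →ₗ[ℝ] V) (hσv : σ D.v = D.v) (hσw : ∀ s, D.w (σ s) = D.w s)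
    (hσ : ∀ s, D.M0 (σ s) = σ (D.M1 s)) (hσT : ∀ s, D.T (σ s) = σ (D.T s)) :
    ∃ Q : Measure (ℤ → Bool), SignLaw (r + 2) Q ∧ chg Q = 1 - 2 * D.w (D.M1 (D.M1 D.v)) := by
  classical
  obtain ⟨μ, hμ⟩ := exists_measure hpos
  have hr : ∀ (c : Bool) (S : Finset ℤ), 0 ≤ D.rho c S := fun c S => G_nonneg hpos _ _ _ _
  have hfl : ∀ S : Finset ℤ, D.rho false S = D.rho true S := by
    intro S
    rw [SR.rho, G_flip σ hσv hσ hσT, hσw]
    rfl
  have hre : ∀ (c : Bool) (S : Finset ℤ), (μ : Measure (ℤ → Bool)).real (CylB c S) = D.rho c S := by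
    intro c S
    rw [Measure.real, hμ, ENNReal.toReal_ofReal (hr c S)]
  have hm1 : Measurable (fun (x : ℤ → Bool) (i : ℤ) => x (i + 1)) :=
    measurable_pi_iff.mpr fun i => measurable_pi_apply _
  have hm2 : Measurable (fun (x : ℤ → Bool) (i : ℤ) => !(x i)) :=
    measurable_pi_iff.mpr fun i =>
      (measurable_of_countable (fun b : Bool => !b)).comp (measurable_pi_apply i)
  refine ⟨(μ : Measure (ℤ → Bool)), ⟨inferInstance, ?_, ?_, ?_⟩, ?_⟩
  · -- stationarity
    have : IsProbabilityMeasure (Measure.map (fun (x : ℤ → Bool) (i : ℤ) => x (i + 1))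
      (μ : Measure (ℤ → Bool))) := Measure.isProbabilityMeasure_map hm1.aemeasurable
    refine ext_of_generate_finite _ pi_eq (isPiSystem_cylSys Set.univ) ?_ ?_
    · rintro s ⟨S, -, rfl⟩
      rw [Measure.map_apply hm1 (measurableSet_Cyl S)]
      have e1 : (fun (x : ℤ → Bool) (i : ℤ) => x (i + 1)) ⁻¹' Cyl S
          = CylB true (S.image (· + 1)) := by
        ext x
        simp only [Cyl, CylB, Set.mem_preimage, Set.mem_ofPred_eq, Finset.forall_mem_image]
      rw [e1, ← CylB_true, hμ, hμ,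
        SR.rho_shift (S := S.image (· + 1)) (S' := S) (fun i => by simp)]
    · rw [Measure.map_apply hm1 MeasurableSet.univ]
      rfl
  · -- flip
    have : IsProbabilityMeasure (Measure.map (fun (x : ℤ → Bool) (i : ℤ) => !(x i))
      (μ : Measure (ℤ → Bool))) := Measure.isProbabilityMeasure_map hm2.aemeasurable
    refine ext_of_generate_finite _ pi_eq (isPiSystem_cylSys Set.univ) ?_ ?_
    · rintro s ⟨S, -, rfl⟩
      rw [Measure.map_apply hm2 (measurableSet_Cyl S)]
      have e1 : (fun (x : ℤ → Bool) (i : ℤ) => !(x i)) ⁻¹' Cyl S = CylB false S := by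
        ext x
        simp [Cyl, CylB]
      rw [e1, ← CylB_true, hμ, hμ, hfl]
    · rw [Measure.map_apply hm2 MeasurableSet.univ]
      rfl
  · intro S T hST
    simp only [← CylB_true]
    rw [hre, hre, hre, SR.rho_union (by push_cast at hST; exact hST)]
  · have e : {s : ℤ → Bool | s 0 ≠ s 1} = (CylB true {0, 1} ∪ CylB false {0, 1})ᶜ := by
      ext x
      simp only [CylB, Set.mem_ofPred_eq, Set.mem_compl_iff, Set.mem_union, Finset.mem_insert,
        Finset.mem_singleton, forall_eq_or_imp, forall_eq]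
      cases x 0 <;> cases x 1 <;> simp
    have hd : Disjoint (CylB true {0, 1}) (CylB false {0, 1}) := by
      rw [Set.disjoint_left]
      intro x h1 h2
      have h3 := h1 0 (by simp)
      have h4 := h2 0 (by simp)
      rw [h3] at h4
      exact absurd h4 (by simp)
    rw [chg, e, measureReal_compl ((measurableSet_CylB _ _).union (measurableSet_CylB _ _)),
      measureReal_union hd (measurableSet_CylB _ _), hre, hre, hfl, rho_pair]
    have h1 : (μ : Measure (ℤ → Bool)).real Set.univ = 1 := by simp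
    rw [h1]
    change 1 - (D.w (D.M1 (D.M1 D.v)) + D.w (D.M1 (D.M1 D.v))) = _
    ring


end HC38bc51.R3
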