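import Mathlib
import Pool.Agent.Work.MP_38bc51_pr.R3.Seq

/-!
# A sign law of range three with correlation `18 √15 / 125`

The memory is the cone of positive semidefinite real symmetric `4 × 4` matrices, in the
coordinates `x_0 1 + Σ S_{ij} L_i R_j`, where `L_i`, `R_j` are the left and right multiplications
by the quaternion units; both letter maps have the form `X ↦ K X Kᵀ`.
-/

namespace HC38bc51.R3

open MeasureTheory ProbabilityTheory HC38bc51.HC

/-- the coordinates -/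
abbrev V10 : Type := Fin 10 → ℝ

/-- the matrix with given coordinates -/
def Phi (x : V10) : Matrix (Fin 4) (Fin 4) ℝ :=
  !![x 0 + x 1 + x 5 + x 9, x 8 - x 6, x 3 - x 7, x 4 - x 2;
    x 8 - x 6, x 0 + x 1 - x 5 - x 9, x 2 + x 4, x 3 + x 7;
    x 3 - x 7, x 2 + x 4, x 0 - x 1 + x 5 - x 9, x 6 + x 8;
    x 4 - x 2, x 3 + x 7, x 6 + x 8, x 0 - x 1 - x 5 + x 9]

/-- the reflection -/
noncomputable def sg : V10 →ₗ[ℝ] V10 where
  toFun x := ![x 0, -x 1, x 2, x 3, -x 4, x 5, x 6, x 7, -x 8, -x 9]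
  map_add' x y := by ext i; fin_cases i <;> simp <;> ring
  map_smul' t x := by ext i; fin_cases i <;> simp

lemma sg_apply (x : V10) : sg x = ![x 0, -x 1, x 2, x 3, -x 4, x 5, x 6, x 7, -x 8, -x 9] := rfl

/-- the first letter map, with parameters -/
noncomputable def m1 (β γ c s : ℝ) : V10 →ₗ[ℝ] V10 where
  toFun x := ![(x 0 + β * x 4) / 2,
    (c * (x 2 - β * x 9) + s * (γ * x 5)) / 2,
    (c * (x 3 + β * x 8) + s * (γ * x 6)) / 2,
    (c * (γ * x 1) + s * (x 4 + β * x 0)) / 2,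
    (-s * (x 2 - β * x 9) + c * (γ * x 5)) / 2,
    (-s * (x 3 + β * x 8) + c * (γ * x 6)) / 2,
    (-s * (γ * x 1) + c * (x 4 + β * x 0)) / 2,
    (x 8 + β * x 3) / 2, (x 9 - β * x 2) / 2, γ * x 7 / 2]
  map_add' x y := by ext i; fin_cases i <;> simp <;> ring
  map_smul' t x := by ext i; fin_cases i <;> simp <;> ring

lemma m1_apply (β γ c s : ℝ) (x : V10) : m1 β γ c s x = ![(x 0 + β * x 4) / 2,
    (c * (x 2 - β * x 9) + s * (γ * x 5)) / 2,
    (c * (x 3 + β * x 8) + s * (γ * x 6)) / 2,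
    (c * (γ * x 1) + s * (x 4 + β * x 0)) / 2,
    (-s * (x 2 - β * x 9) + c * (γ * x 5)) / 2,
    (-s * (x 3 + β * x 8) + c * (γ * x 6)) / 2,
    (-s * (γ * x 1) + c * (x 4 + β * x 0)) / 2,
    (x 8 + β * x 3) / 2, (x 9 - β * x 2) / 2, γ * x 7 / 2] := rfl

lemma sg_sg (x : V10) : sg (sg x) = x := by
  rw [sg_apply, sg_apply]
  ext i
  fin_cases i <;> simp

/-- the other letter map -/
noncomputable def m0 (β γ c s : ℝ) : V10 →ₗ[ℝ] V10 := sg ∘ₗ m1 β γ c s ∘ₗ sg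

lemma m0_apply (β γ c s : ℝ) (x : V10) : m0 β γ c s x = sg (m1 β γ c s (sg x)) := rfl

/-- the total map -/
lemma tot_apply (β γ c s : ℝ) (x : V10) : (m0 β γ c s + m1 β γ c s) x =
    ![x 0, -(c * β * x 9), c * x 3 + s * γ * x 6, s * β * x 0, s * β * x 9,
      -s * x 3 + c * γ * x 6, c * β * x 0, β * x 3, x 9, 0] := by
  rw [LinearMap.add_apply, m0_apply, m1_apply, sg_apply, m1_apply, sg_apply]
  ext i
  fin_cases i <;> simp <;> ring

/-- the stationary state -/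
noncomputable def vv (β γ c s : ℝ) : V10 :=
  ![1, 0, c * (s * β) + s * γ * (c * β), s * β, 0, -s * (s * β) + c * γ * (c * β), c * β,
    β * (s * β), 0, 0]

/-- the matrix product data -/
noncomputable def dat (β γ c s : ℝ) : SR 1 V10 where
  M0 := m0 β γ c s
  M1 := m1 β γ c s
  w := LinearMap.proj 0
  v := vv β γ c s
  wv := by simp [vv]
  wT x := by rw [tot_apply]; simp
  Tv := by
    rw [tot_apply]
    ext i
    fin_cases i <;> simp [vv]
  rk x := by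
    simp only [Function.iterate_succ, Function.iterate_zero, Function.comp_apply, id_eq]
    rw [tot_apply, tot_apply]
    ext i
    fin_cases i <;> simp [vv] <;> ring

/-- conjugation by `a + b L_2 R_1` -/
def fD (a b : ℝ) (x : V10) : V10 :=
  ![(a ^ 2 + b ^ 2) * x 0 + 2 * a * b * x 4, (a ^ 2 - b ^ 2) * x 1,
    (a ^ 2 + b ^ 2) * x 2 - 2 * a * b * x 9, (a ^ 2 + b ^ 2) * x 3 + 2 * a * b * x 8,
    (a ^ 2 + b ^ 2) * x 4 + 2 * a * b * x 0, (a ^ 2 - b ^ 2) * x 5, (a ^ 2 - b ^ 2) * x 6,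
    (a ^ 2 - b ^ 2) * x 7, (a ^ 2 + b ^ 2) * x 8 + 2 * a * b * x 3,
    (a ^ 2 + b ^ 2) * x 9 - 2 * a * b * x 2]

/-- conjugation by `p - q L_3` -/
def fL (p q : ℝ) (x : V10) : V10 :=
  ![(p ^ 2 + q ^ 2) * x 0,
    (p ^ 2 - q ^ 2) * x 1 + 2 * p * q * x 4, (p ^ 2 - q ^ 2) * x 2 + 2 * p * q * x 5,
    (p ^ 2 - q ^ 2) * x 3 + 2 * p * q * x 6,
    -(2 * p * q) * x 1 + (p ^ 2 - q ^ 2) * x 4, -(2 * p * q) * x 2 + (p ^ 2 - q ^ 2) * x 5,
    -(2 * p * q) * x 3 + (p ^ 2 - q ^ 2) * x 6,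
    (p ^ 2 + q ^ 2) * x 7, (p ^ 2 + q ^ 2) * x 8, (p ^ 2 + q ^ 2) * x 9]

/-- conjugation by the right multiplication of order three -/
def fR (x : V10) : V10 := ![x 0, x 2, x 3, x 1, x 5, x 6, x 4, x 8, x 9, x 7]

/-- `a + b L_2 R_1` -/
def KD (a b : ℝ) : Matrix (Fin 4) (Fin 4) ℝ :=
  !![a, 0, 0, b; 0, a, b, 0; 0, b, a, 0; b, 0, 0, a]

/-- `p - q L_3` -/
def KL (p q : ℝ) : Matrix (Fin 4) (Fin 4) ℝ :=
  !![p, 0, 0, q; 0, p, q, 0; 0, -q, p, 0; -q, 0, 0, p]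

/-- the right multiplication by `(1 + i + j + k) / 2` -/
noncomputable def KR : Matrix (Fin 4) (Fin 4) ℝ :=
  !![1 / 2, -1 / 2, -1 / 2, -1 / 2; 1 / 2, 1 / 2, 1 / 2, -1 / 2; 1 / 2, -1 / 2, 1 / 2, 1 / 2;
    1 / 2, 1 / 2, -1 / 2, 1 / 2]

/-- `L_3 R_1` -/
def KV : Matrix (Fin 4) (Fin 4) ℝ :=
  !![0, 0, -1, 0; 0, 0, 0, 1; -1, 0, 0, 0; 0, 1, 0, 0]

lemma phi_fD (a b : ℝ) (x : V10) : Phi (fD a b x) = KD a b * Phi x * (KD a b).transpose := by
  ext i j
  fin_cases i <;> fin_cases j <;>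
    simp [Phi, fD, KD, Matrix.mul_apply, Fin.sum_univ_four] <;> ring

lemma phi_fL (p q : ℝ) (x : V10) : Phi (fL p q x) = KL p q * Phi x * (KL p q).transpose := by
  ext i j
  fin_cases i <;> fin_cases j <;>
    simp [Phi, fL, KL, Matrix.mul_apply, Fin.sum_univ_four] <;> ring

lemma phi_fR (x : V10) : Phi (fR x) = KR * Phi x * KR.transpose := by
  ext i j
  fin_cases i <;> fin_cases j <;>
    simp [Phi, fR, KR, Matrix.mul_apply, Fin.sum_univ_four] <;> ring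

lemma phi_sg (x : V10) : Phi (sg x) = KV * Phi x * KV.transpose := by
  rw [sg_apply]
  ext i j
  fin_cases i <;> fin_cases j <;>
    simp [Phi, KV, Matrix.mul_apply, Fin.sum_univ_four] <;> ring

lemma conj_psd {A : Matrix (Fin 4) (Fin 4) ℝ} (hA : A.PosSemidef) (B : Matrix (Fin 4) (Fin 4) ℝ) :
    (B * A * B.transpose).PosSemidef := by
  have h := hA.mul_mul_conjTranspose_same B
  rwa [Matrix.conjTranspose_eq_transpose_of_trivial] at h

/-- the cone -/
def Good (x : V10) : Prop := (Phi x).PosSemidef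

lemma good_m1 {a b p q β γ c s : ℝ} (hab : a ^ 2 + b ^ 2 = 1 / 2) (hpq : p ^ 2 + q ^ 2 = 1)
    (hβ : 4 * a * b = β) (hγ : 2 * (a ^ 2 - b ^ 2) = γ) (hc : p ^ 2 - q ^ 2 = c)
    (hs : 2 * p * q = s) {x : V10} (hx : Good x) : Good (m1 β γ c s x) := by
  have e : m1 β γ c s x = fR (fL p q (fD a b x)) := by
    have hβ' : 2 * a * b = β / 2 := by rw [← hβ]; ring
    have hγ' : a ^ 2 - b ^ 2 = γ / 2 := by rw [← hγ]; ring
    rw [m1_apply, fR, fL, fD, hab, hpq, hc, hs, hβ', hγ']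
    ext i
    fin_cases i <;> simp <;> ring
  rw [e, Good, phi_fR, phi_fL, phi_fD]
  exact conj_psd (conj_psd (conj_psd hx _) _) _

lemma good_sg {x : V10} (hx : Good x) : Good (sg x) := by
  rw [Good, phi_sg]
  exact conj_psd hx _

lemma good_w {x : V10} (hx : Good x) : 0 ≤ x 0 := by
  have h := Matrix.PosSemidef.trace_nonneg hx
  simp only [Matrix.trace, Matrix.diag, Fin.sum_univ_four, Phi] at h
  simp at h
  linarith

lemma phi_add (x y : V10) : Phi (x + y) = Phi x + Phi y := by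
  ext i j
  fin_cases i <;> fin_cases j <;> simp [Phi] <;> ring

lemma good_add {x y : V10} (hx : Good x) (hy : Good y) : Good (x + y) := by
  rw [Good, phi_add]
  exact hx.add hy

/-- The law. -/
theorem law {a b p q β γ c s : ℝ} (hab : a ^ 2 + b ^ 2 = 1 / 2) (hpq : p ^ 2 + q ^ 2 = 1)
    (hβ : 4 * a * b = β) (hγ : 2 * (a ^ 2 - b ^ 2) = γ) (hc : p ^ 2 - q ^ 2 = c)
    (hs : 2 * p * q = s) :
    ∃ Q : Measure (ℤ → Bool), SignLaw 3 Q ∧
      chg Q = (1 - β ^ 2 * c * (γ ^ 2 * c ^ 2 - s ^ 2 * (1 + 2 * γ))) / 2 := by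
  have g1 : ∀ {x : V10}, Good x → Good (m1 β γ c s x) := fun hx => good_m1 hab hpq hβ hγ hc hs hx
  have g0 : ∀ {x : V10}, Good x → Good (m0 β γ c s x) := fun hx => by
    rw [m0_apply]; exact good_sg (g1 (good_sg hx))
  have gT : ∀ {x : V10}, Good x → Good ((m0 β γ c s + m1 β γ c s) x) := fun hx => by
    rw [LinearMap.add_apply]; exact good_add (g0 hx) (g1 hx)
  have gv : Good (vv β γ c s) := by
    have h1 : Good (![1, 0, 0, 0, 0, 0, 0, 0, 0, 0] : V10) := by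
      have : Phi (![1, 0, 0, 0, 0, 0, 0, 0, 0, 0] : V10) = 1 := by
        ext i j
        fin_cases i <;> fin_cases j <;> simp [Phi]
      rw [Good, this]
      exact Matrix.PosSemidef.one
    have h2 := gT (gT h1)
    rw [tot_apply, tot_apply] at h2
    convert h2 using 1
    ext i
    fin_cases i <;> simp [vv]
  have gst : ∀ (n : ℕ) (f : Fin n → Bool), Good ((dat β γ c s).st n f) := by
    intro n
    induction n with
    | zero => intro f; exact gv
    | succ n ih =>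
      intro f
      change Good ((dat β γ c s).L (f 0) ((dat β γ c s).st n (Fin.tail f)))
      unfold SR.L
      split_ifs
      · exact g1 (ih _)
      · exact g0 (ih _)
  obtain ⟨Q, hQ, e⟩ := exists_signLaw (D := dat β γ c s) (fun n f => good_w (gst n f)) sg
    (by
      change sg (vv β γ c s) = vv β γ c s
      rw [sg_apply]
      ext i
      fin_cases i <;> simp [vv])
    (fun x => by
      change sg x 0 = x 0
      rw [sg_apply]
      simp)
    (fun x => by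
      change m0 β γ c s (sg x) = sg (m1 β γ c s x)
      rw [m0_apply, sg_sg])
    (fun x => by
      change (m0 β γ c s + m1 β γ c s) (sg x) = sg ((m0 β γ c s + m1 β γ c s) x)
      rw [LinearMap.add_apply, LinearMap.add_apply, m0_apply, m0_apply, sg_sg, map_add, sg_sg,
        add_comm])
  refine ⟨Q, hQ, ?_⟩
  rw [e]
  change 1 - 2 * (m1 β γ c s (m1 β γ c s (vv β γ c s))) 0 = _
  rw [m1_apply, m1_apply]
  simp [vv]
  ring

theorem seq3 : ∃ Q : Measure (ℤ → Bool), SignLaw 3 Q ∧ chg Q = 1 / 2 - 9 * √15 / 125 := by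
  have h15 : √15 ^ 2 = (15 : ℝ) := Real.sq_sqrt (by norm_num)
  have h15p : 0 ≤ √15 := Real.sqrt_nonneg _
  have h15l : √15 ≤ 4 := Real.sqrt_le_iff.mpr ⟨by norm_num, by norm_num⟩
  have h35 : √35 ^ 2 = (35 : ℝ) := Real.sq_sqrt (by norm_num)
  set p : ℝ := √((1 - √15 / 7) / 2) with hp
  set q : ℝ := √((1 + √15 / 7) / 2) with hq
  have hp2 : p ^ 2 = (1 - √15 / 7) / 2 := Real.sq_sqrt (by linarith)
  have hq2 : q ^ 2 = (1 + √15 / 7) / 2 := Real.sq_sqrt (by linarith)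
  obtain ⟨Q, hQ, e⟩ := law (a := √35 / 10) (b := √15 / 10) (p := p) (q := q)
    (by rw [div_pow, div_pow, h35, h15]; norm_num) (by rw [hp2, hq2]; ring) rfl rfl rfl rfl
  refine ⟨Q, hQ, ?_⟩
  rw [e]
  have e1 : (4 * (√35 / 10) * (√15 / 10)) ^ 2 = 21 / 25 := by
    have : (4 * (√35 / 10) * (√15 / 10)) ^ 2 = 16 * √35 ^ 2 * √15 ^ 2 / 10000 := by ring
    rw [this, h35, h15]; norm_num
  have e2 : 2 * ((√35 / 10) ^ 2 - (√15 / 10) ^ 2) = 2 / 5 := by
    rw [div_pow, div_pow, h35, h15]; norm_num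
  have e3 : p ^ 2 - q ^ 2 = -(√15 / 7) := by rw [hp2, hq2]; ring
  have e4 : (2 * p * q) ^ 2 = 34 / 49 := by
    have : (2 * p * q) ^ 2 = 4 * p ^ 2 * q ^ 2 := by ring
    rw [this, hp2, hq2]
    nlinarith [h15]
  rw [e1, e2, e3, e4]
  have e5 : (-(√15 / 7)) ^ 2 = 15 / 49 := by
    have : (-(√15 / 7)) ^ 2 = √15 ^ 2 / 49 := by ring
    rw [this, h15]
  rw [e5]
  ring

end HC38bc51.R3
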