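import Mathlib
import Pool.Agent.Work.MP_38bc51_pr.LP.Main
import Pool.Agent.Work.MP_38bc51_pr.R3.Data

/-!
# The limit constant: both bounds
-/

namespace HC38bc51.R3

open MeasureTheory ProbabilityTheory Filter HC38bc51.HC

/-- the lower bounds for `p_k` when `3` divides `k` -/
theorem pcrit_three {h : ℕ} (hh : 1 ≤ h) :
    1 / 2 - (1 - 18 * √15 / 125) / ((3 * h : ℕ) + 1) ≤ pcrit (3 * h) := by
  obtain ⟨Q, hQ, e⟩ := seq3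
  obtain ⟨Q', hQ', e'⟩ := renorm (by norm_num) hh hQ
  have h2 := hard hQ'
  rw [e', e] at h2
  refine le_trans (le_of_eq ?_) h2
  have h3 : (0 : ℝ) < 3 * (h : ℝ) + 1 := by positivity
  push_cast
  field_simp
  ring

theorem main : ∃ L : ℝ,
    Tendsto (fun k : ℕ => 2 * (k : ℝ) * (1 / 2 - pcrit k)) atTop (nhds L) ∧
    (∀ m : ℕ, 1 ≤ m → (∃ Q : Measure (ℤ → Bool), SignLaw m Q ∧ (m : ℝ) * chg Q ≤ L) ∧
      ∀ Q : Measure (ℤ → Bool), SignLaw m Q → L ≤ ((m : ℝ) + 1) * chg Q) ∧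
    2 / 3 < L ∧ L ≤ 2 - 36 * √15 / 125 ∧
    (∀ᶠ k : ℕ in atTop, pcrit k < 1 / 2 - 1 / (3 * (k : ℝ))) ∧
    ∀ h : ℕ, 1 ≤ h → 1 / 2 - (1 - 18 * √15 / 125) / ((3 * h : ℕ) + 1) ≤ pcrit (3 * h) := by
  obtain ⟨L, hL, hm, hlt, hk⟩ := HC38bc51.LP.main
  obtain ⟨Q, hQ, e⟩ := seq3
  have h1 := (hm 3 (by norm_num)).2 Q hQ
  rw [e] at h1
  push_cast at h1
  exact ⟨L, hL, hm, hlt, by linarith, hk, fun h hh => pcrit_three hh⟩

end HC38bc51.R3
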